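import Mathlib
import Pool.Agent.Results.MP_4e951d_mp.IndexWithinOne

namespace Pool.Agent.Results.MP_4e951d_mp.RankOneFamily

open Matrix
open scoped ComplexOrder
open Pool.Agent.Results.MP_4e951d_mp.IndexWithinOne

section chain

variable {E : Type*} [AddCommGroup E] [Module ℂ E] [FiniteDimensional ℂ E]

lemma chain_le {U : ℕ → Submodule ℂ E} (hmono : ∀ k, U k ≤ U (k+1))
    (hst : ∀ k, U (k+1) ≤ U k → U (k+2) ≤ U (k+1)) (h0 : U 0 ≠ ⊥) {D : ℕ}
    (hD : ∀ k, Module.finrank ℂ (U k) ≤ D) : ∀ j, U j ≤ U (D-1) := by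
  have hm : Monotone U := monotone_nat_of_le_succ hmono
  have hD1 : 1 ≤ D := by
    have h1 : 0 < Module.finrank ℂ (U 0) := by
      rcases Nat.eq_zero_or_pos (Module.finrank ℂ (U 0)) with h | h
      · exact absurd (Submodule.finrank_eq_zero.1 h) h0
      · exact h
    have := hD 0
    omega
  by_cases hex : ∃ k, k ≤ D - 1 ∧ U (k+1) ≤ U k
  · obtain ⟨k, hk, hk2⟩ := hex
    have h1 : ∀ i, U (k+i+1) ≤ U (k+i) := by
      intro i
      induction i with
      | zero => exact hk2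
      | succ i ih => exact hst (k+i) ih
    have h2 : ∀ i, U (k+i) ≤ U k := by
      intro i
      induction i with
      | zero => exact le_rfl
      | succ i ih => exact (h1 i).trans ih
    intro j
    rcases Nat.lt_or_ge j k with hj | hj
    · exact hm (by omega)
    · obtain ⟨i, rfl⟩ := Nat.exists_eq_add_of_le hj
      exact (h2 i).trans (hm hk)
  · push Not at hex
    exfalso
    have h1 : ∀ k, k ≤ D → k + 1 ≤ Module.finrank ℂ (U k) := by
      intro k
      induction k with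
      | zero =>
        intro _
        rcases Nat.eq_zero_or_pos (Module.finrank ℂ (U 0)) with h | h
        · exact absurd (Submodule.finrank_eq_zero.1 h) h0
        · omega
      | succ k ih =>
        intro hk
        have h2 := ih (by omega)
        have h3 : U k < U (k+1) := lt_of_le_not_ge (hmono k) (hex k (by omega))
        have h4 := Submodule.finrank_lt_finrank_of_lt h3
        omega
    have h2 := h1 D le_rfl
    have h3 := hD D
    omega

end chain

section rankone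

variable {D : ℕ} {W : Submodule ℂ (Matrix (Fin D) (Fin D) ℂ)}

lemma L_mul_L (u η : Fin D → ℂ) (M : Matrix (Fin D) (Fin D) ℂ) :
    ∃ c : ℂ, vecMulVec u η * M * vecMulVec u η = c • vecMulVec u η := by
  refine ⟨(η ᵥ* M) ⬝ᵥ u, ?_⟩
  rw [Matrix.vecMulVec_mul, Matrix.vecMulVec_mul_vecMulVec]
  ext i j
  simp [Matrix.vecMulVec_apply]
  try ring

/-- the matrices `v ηᵀ` -/
def colLin (η : Fin D → ℂ) : (Fin D → ℂ) →ₗ[ℂ] Matrix (Fin D) (Fin D) ℂ where
  toFun v := vecMulVec v η
  map_add' v w := by ext i j; simp [Matrix.vecMulVec_apply, add_mul]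
  map_smul' c v := by ext i j; simp [Matrix.vecMulVec_apply, mul_assoc]

lemma mul_le_range (u η : Fin D → ℂ) (P : Submodule ℂ (Matrix (Fin D) (Fin D) ℂ)) :
    P * (ℂ ∙ vecMulVec u η) ≤ LinearMap.range (colLin η) := by
  rw [Submodule.mul_le]
  intro m _ n hn
  obtain ⟨c, rfl⟩ := Submodule.mem_span_singleton.1 hn
  refine ⟨c • (m *ᵥ u), ?_⟩
  show vecMulVec (c • (m *ᵥ u)) η = m * c • vecMulVec u η
  rw [Matrix.mul_smul, Matrix.mul_vecMulVec]
  ext i j
  simp [Matrix.vecMulVec_apply, mul_assoc]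

lemma finrank_le (u η : Fin D → ℂ) (P : Submodule ℂ (Matrix (Fin D) (Fin D) ℂ)) :
    Module.finrank ℂ (P * (ℂ ∙ vecMulVec u η) : Submodule ℂ (Matrix (Fin D) (Fin D) ℂ)) ≤ D := by
  have h1 := Submodule.finrank_mono (mul_le_range u η P)
  have h2 := LinearMap.finrank_range_le (colLin (D := D) η)
  simp only [Module.finrank_fin_fun] at h2
  exact h1.trans h2

/-- the chain argument for powers of a submodule `P` with `ℂL ≤ P * ℂL` -/
lemma power_chain {u η : Fin D → ℂ} (hL : vecMulVec u η ≠ 0)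
    {P : Submodule ℂ (Matrix (Fin D) (Fin D) ℂ)}
    (hP : (ℂ ∙ vecMulVec u η) ≤ P * (ℂ ∙ vecMulVec u η)) :
    ∀ j, P ^ j * (ℂ ∙ vecMulVec u η) ≤ P ^ (D-1) * (ℂ ∙ vecMulVec u η) := by
  apply chain_le (U := fun j => P ^ j * (ℂ ∙ vecMulVec u η))
  · intro k
    show P ^ k * (ℂ ∙ vecMulVec u η) ≤ P ^ (k+1) * (ℂ ∙ vecMulVec u η)
    rw [pow_succ, mul_assoc]
    exact mul_le_mul' le_rfl hP
  · intro k h
    show P ^ (k+2) * (ℂ ∙ vecMulVec u η) ≤ P ^ (k+1) * (ℂ ∙ vecMulVec u η)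
    have h' : P ^ (k+1) * (ℂ ∙ vecMulVec u η) ≤ P ^ k * (ℂ ∙ vecMulVec u η) := h
    calc P ^ (k+2) * (ℂ ∙ vecMulVec u η) = P * (P ^ (k+1) * (ℂ ∙ vecMulVec u η)) := by
          rw [← mul_assoc, ← pow_succ']
      _ ≤ P * (P ^ k * (ℂ ∙ vecMulVec u η)) := mul_le_mul' le_rfl h'
      _ = P ^ (k+1) * (ℂ ∙ vecMulVec u η) := by rw [← mul_assoc, ← pow_succ']
  · show P ^ 0 * (ℂ ∙ vecMulVec u η) ≠ ⊥
    rw [pow_zero, one_mul]
    intro h
    exact hL (Submodule.span_singleton_eq_bot.1 h)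
  · intro k
    exact finrank_le u η _

lemma LMM (u η : Fin D → ℂ) (P Q : Submodule ℂ (Matrix (Fin D) (Fin D) ℂ)) (h : P ≤ Q) :
    (ℂ ∙ vecMulVec u η) * P * (ℂ ∙ vecMulVec u η) ≤ (ℂ ∙ vecMulVec u η) * Q * (ℂ ∙ vecMulVec u η) :=
  mul_le_mul' (mul_le_mul' le_rfl h) le_rfl

/-- there is a short return time -/
lemma exists_return {u η : Fin D → ℂ} (hL : vecMulVec u η ≠ 0) {N : ℕ} (hN : W ^ N = ⊤) :
    ∃ m, m ≤ D - 1 ∧ (ℂ ∙ vecMulVec u η) * W ^ m * (ℂ ∙ vecMulVec u η) ≠ ⊥ := by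
  by_contra hcon
  push Not at hcon
  have key : ∀ n a, a + n ≤ D - 1 →
      (ℂ ∙ vecMulVec u η) * W ^ a * ((1 ⊔ W) ^ n * (ℂ ∙ vecMulVec u η)) = ⊥ := by
    intro n
    induction n with
    | zero =>
      intro a ha
      rw [pow_zero, one_mul]
      exact hcon a (by omega)
    | succ n ih =>
      intro a ha
      rw [pow_succ', mul_assoc (1 ⊔ W), ← mul_assoc ((ℂ ∙ vecMulVec u η) * W ^ a), Submodule.mul_sup,
        Submodule.sup_mul, mul_one, ih a (by omega), mul_assoc (ℂ ∙ vecMulVec u η), ← pow_succ,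
        ih (a+1) (by omega), bot_sup_eq]
  have h1 := power_chain (P := 1 ⊔ W) hL (by
    calc (ℂ ∙ vecMulVec u η) = 1 * (ℂ ∙ vecMulVec u η) := (one_mul _).symm
      _ ≤ (1 ⊔ W) * (ℂ ∙ vecMulVec u η) := mul_le_mul' le_sup_left le_rfl)
  have h2 : (⊤ : Submodule ℂ (Matrix (Fin D) (Fin D) ℂ)) * (ℂ ∙ vecMulVec u η) ≤
      (1 ⊔ W) ^ (D-1) * (ℂ ∙ vecMulVec u η) := by
    refine le_trans ?_ (h1 N)
    apply mul_le_mul' _ le_rfl
    rw [← hN]
    exact pow_le_pow_left' le_sup_right N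
  have h3 := key (D-1) 0 (by omega)
  rw [pow_zero, mul_one] at h3
  have h4 : (ℂ ∙ vecMulVec u η) * ((⊤ : Submodule ℂ (Matrix (Fin D) (Fin D) ℂ)) *
      (ℂ ∙ vecMulVec u η)) ≤ ⊥ := by
    rw [← h3]
    exact mul_le_mul' le_rfl h2
  have h5 : vecMulVec u η * ((vecMulVec u η)ᴴ * vecMulVec u η) ∈
      (⊥ : Submodule ℂ (Matrix (Fin D) (Fin D) ℂ)) := by
    apply h4
    apply Submodule.mul_mem_mul (Submodule.mem_span_singleton_self _)
    exact Submodule.mul_mem_mul trivial (Submodule.mem_span_singleton_self _)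
  rw [Submodule.mem_bot, ← mul_assoc] at h5
  have h6 := (Matrix.self_mul_conjTranspose_mul_eq_zero (vecMulVec u η) (vecMulVec u η)).1 h5
  exact hL (Matrix.conjTranspose_mul_self_eq_zero.1 h6)

/-- the full first factor already at exponent `D (D-1)` -/
lemma rank_one_full {u η : Fin D → ℂ} (hL : vecMulVec u η ≠ 0) (hLW : vecMulVec u η ∈ W)
    {X : Matrix (Fin D) (Fin D) ℂ} (hX : X ∈ W) (hXu : IsUnit X)
    {N : ℕ} (hN : W ^ N = ⊤) (hD : 1 ≤ D) :
    (⊤ : Submodule ℂ (Matrix (Fin D) (Fin D) ℂ)) * (ℂ ∙ vecMulVec u η) ≤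
      W ^ (D * (D - 1)) * (ℂ ∙ vecMulVec u η) := by
  obtain ⟨m, hm, hne⟩ := exists_return hL hN
  have hLW' : (ℂ ∙ vecMulVec u η) ≤ W := by
    rw [Submodule.span_singleton_le_iff_mem]; exact hLW
  -- L ∈ W^(m+1) * L
  have h1 : (ℂ ∙ vecMulVec u η) ≤ W ^ (m+1) * (ℂ ∙ vecMulVec u η) := by
    have h2 : ∃ M ∈ W ^ m, vecMulVec u η * M * vecMulVec u η ≠ 0 := by
      by_contra hcon
      push Not at hcon
      apply hne
      rw [eq_bot_iff, Submodule.mul_le]
      intro a ha b hb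
      obtain ⟨c, rfl⟩ := Submodule.mem_span_singleton.1 hb
      rw [Submodule.mem_bot]
      refine Submodule.mul_induction_on ha ?_ ?_
      · intro x hx y hy
        obtain ⟨c', rfl⟩ := Submodule.mem_span_singleton.1 hx
        rw [Matrix.smul_mul, Matrix.mul_smul, Matrix.smul_mul, hcon y hy]
        simp
      · intro x y hx hy
        rw [add_mul, hx, hy, add_zero]
    obtain ⟨M, hM, hM2⟩ := h2
    obtain ⟨c, hc⟩ := L_mul_L u η M
    have hc0 : c ≠ 0 := by
      rintro rfl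
      apply hM2
      rw [hc, zero_smul]
    rw [Submodule.span_singleton_le_iff_mem]
    have h3 : vecMulVec u η = c⁻¹ • (vecMulVec u η * M * vecMulVec u η) := by
      rw [hc, smul_smul, inv_mul_cancel₀ hc0, one_smul]
    have h4 : vecMulVec u η * M * vecMulVec u η ∈ W ^ (m+1) * (ℂ ∙ vecMulVec u η) := by
      apply Submodule.mul_mem_mul _ (Submodule.mem_span_singleton_self _)
      rw [pow_succ']
      exact Submodule.mul_mem_mul hLW hM
    have h5 := Submodule.smul_mem _ c⁻¹ h4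
    rw [← h3] at h5
    exact h5
  have h2 := power_chain hL h1 N
  rw [← pow_mul, ← pow_mul] at h2
  have hXtop : ∀ t, (⊤ : Submodule ℂ (Matrix (Fin D) (Fin D) ℂ)) ≤ W ^ t * ⊤ := by
    intro t M _
    obtain ⟨Y, hY⟩ := (hXu.pow t).exists_right_inv
    have : M = X ^ t * (Y * M) := by rw [← mul_assoc, hY, one_mul]
    rw [this]
    exact Submodule.mul_mem_mul (Submodule.pow_mem_pow _ hX t) trivial
  -- W^((m+1) N) * L = everything
  have h3 : (⊤ : Submodule ℂ (Matrix (Fin D) (Fin D) ℂ)) * (ℂ ∙ vecMulVec u η) ≤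
      W ^ ((m+1) * (D-1)) * (ℂ ∙ vecMulVec u η) := by
    refine le_trans ?_ h2
    apply mul_le_mul' _ le_rfl
    have e : (m+1) * N = m * N + N := by ring
    rw [e, pow_add, hN]
    exact hXtop _
  have e : D * (D-1) = (D - (m+1)) * (D-1) + (m+1) * (D-1) := by
    rw [← add_mul]
    congr 1
    omega
  rw [e, pow_add, mul_assoc]
  calc (⊤ : Submodule ℂ (Matrix (Fin D) (Fin D) ℂ)) * (ℂ ∙ vecMulVec u η)
      ≤ (W ^ ((D - (m+1)) * (D-1)) * ⊤) * (ℂ ∙ vecMulVec u η) :=
        mul_le_mul' (hXtop _) le_rfl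
    _ = W ^ ((D - (m+1)) * (D-1)) * (⊤ * (ℂ ∙ vecMulVec u η)) := mul_assoc _ _ _
    _ ≤ _ := mul_le_mul' le_rfl h3

/-- a rank-one element of `W` gives an element of nonzero trace in `W ^ (D² - D + 1)` -/
lemma rank_one_trace {u η : Fin D → ℂ} (hL : vecMulVec u η ≠ 0) (hLW : vecMulVec u η ∈ W)
    {X : Matrix (Fin D) (Fin D) ℂ} (hX : X ∈ W) (hXu : IsUnit X)
    {N : ℕ} (hN : W ^ N = ⊤) (hD : 1 ≤ D) :
    ∃ M ∈ W ^ (D ^ 2 - D + 1), M.trace ≠ 0 := by
  have h1 := rank_one_full hL hLW hX hXu hN hD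
  have h2 : (vecMulVec u η)ᴴ * vecMulVec u η ∈ W ^ (D * (D - 1)) * (ℂ ∙ vecMulVec u η) :=
    h1 (Submodule.mul_mem_mul trivial (Submodule.mem_span_singleton_self _))
  refine ⟨_, ?_, fun h => hL (Matrix.trace_conjTranspose_mul_self_eq_zero_iff.1 h)⟩
  have e : D ^ 2 - D + 1 = D * (D-1) + 1 := by
    rw [pow_two, Nat.mul_sub_one]
  rw [e, pow_succ]
  have h3 : W ^ (D * (D-1)) * (ℂ ∙ vecMulVec u η) ≤ W ^ (D * (D-1)) * W :=
    mul_le_mul' le_rfl (by rw [Submodule.span_singleton_le_iff_mem]; exact hLW)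
  exact h3 h2

end rankone

lemma tr_single {D : ℕ} (Q : Matrix (Fin D) (Fin D) ℂ) (a b : Fin D) :
    (Q * Matrix.single a b 1).trace = Q b a := by
  rw [Matrix.trace_mul_comm]
  simp [Matrix.trace, Matrix.mul_apply, Matrix.single_apply, ite_and]

lemma scalar_of_trace {D : ℕ} (Q : Matrix (Fin D) (Fin D) ℂ)
    (h : ∀ M : Matrix (Fin D) (Fin D) ℂ, M.trace = 0 → (Q * M).trace = 0) :
    ∃ c : ℂ, Q = c • (1 : Matrix (Fin D) (Fin D) ℂ) := by
  rcases D with _ | D
  · exact ⟨0, by ext i; exact i.elim0⟩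
  · refine ⟨Q 0 0, ?_⟩
    ext i j
    by_cases hij : i = j
    · subst hij
      have h1 := h (Matrix.single i i 1 - Matrix.single 0 0 1) (by
        rw [Matrix.trace_sub]; simp)
      rw [mul_sub, Matrix.trace_sub, tr_single, tr_single, sub_eq_zero] at h1
      simp [h1]
    · have h1 := h (Matrix.single j i 1) (by
        rw [Matrix.trace_single_eq_of_ne]; exact fun h => hij h.symm)
      rw [tr_single] at h1
      simp [h1, hij]

section main

variable {D d : ℕ} {A : Fin d → Matrix (Fin D) (Fin D) ℂ}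

lemma comb_mem (c : Fin d → ℂ) : (∑ i, c i • A i) ∈ Submodule.span ℂ (Set.range A) :=
  Submodule.sum_mem _ (fun i _ => Submodule.smul_mem _ _ (Submodule.subset_span ⟨i, rfl⟩))

lemma main_upper (hD : 1 ≤ D) (hA : Normal A) {c : Fin d → ℂ} {u η : Fin D → ℂ}
    (hc : ∑ i, c i • A i = vecMulVec u η) (h0 : ∑ i, c i • A i ≠ 0) :
    injIndex A ≤ D ^ 2 - D + 1 := by
  rcases IndexWithinOne.result.2.2.2.2 D d A hD hA with h | ⟨h1, h2⟩
  · exact h
  · by_contra hcon
    by_cases hs : ∀ c : Fin d → ℂ, ¬ IsUnit (∑ i, c i • A i)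
    · exact hcon (IndexWithinOne.result.2.2.2.1 D d A hD hA hs)
    · push Not at hs
      obtain ⟨c', hc'⟩ := hs
      obtain ⟨-, htop⟩ := injIndex_mem hA
      rw [prodSpan_eq] at htop
      have hmem := comb_mem (A := A) c
      rw [hc] at hmem h0
      obtain ⟨M, hM, hM2⟩ := rank_one_trace h0 hmem (comb_mem c') hc' htop hD
      rw [← prodSpan_eq] at hM
      exact hM2 ((h2 M).1 hM)

lemma stab_scalar (hD : 1 ≤ D) (hA : Normal A) (hex : D ^ 2 - D + 1 < injIndex A)
    (Q : Matrix (Fin D) (Fin D) ℂ) (i : ℕ) (hi : i ≤ D ^ 2 - D + 1)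
    (hQ : (∀ M ∈ prodSpan A i, Q * M ∈ prodSpan A i) ∨
      (∀ M ∈ prodSpan A i, M * Q ∈ prodSpan A i)) :
    ∃ c : ℂ, Q = c • (1 : Matrix (Fin D) (Fin D) ℂ) := by
  rcases IndexWithinOne.result.2.2.2.2 D d A hD hA with h | ⟨h1, h2⟩
  · omega
  · have hK : ∀ M : Matrix (Fin D) (Fin D) ℂ, M ∈ (Submodule.span ℂ (Set.range A)) ^ (D ^ 2 - D + 1)
        ↔ M.trace = 0 := by
      intro M
      rw [← prodSpan_eq]
      exact h2 M
    rw [prodSpan_eq] at hQ
    obtain ⟨t, ht⟩ := Nat.exists_eq_add_of_le hi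
    rcases hQ with hQ | hQ
    · apply scalar_of_trace
      intro M hM
      rw [← hK, ht, pow_add] at hM
      rw [← hK, ht, pow_add]
      refine Submodule.mul_induction_on hM ?_ ?_
      · intro x hx y hy
        rw [← mul_assoc]
        exact Submodule.mul_mem_mul (hQ x hx) hy
      · intro x y hx hy
        rw [mul_add]
        exact Submodule.add_mem _ hx hy
    · apply scalar_of_trace
      intro M hM
      rw [Matrix.trace_mul_comm]
      rw [← hK, ht, add_comm, pow_add] at hM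
      rw [← hK, ht, add_comm, pow_add]
      refine Submodule.mul_induction_on hM ?_ ?_
      · intro x hx y hy
        rw [mul_assoc]
        exact Submodule.mul_mem_mul hx (hQ y hy)
      · intro x y hx hy
        rw [add_mul]
        exact Submodule.add_mem _ hx hy

lemma pencil_upper (hD : 1 ≤ D) (hA : Normal A) {X Y : Matrix (Fin D) (Fin D) ℂ}
    (hW : Submodule.span ℂ (Set.range A) = Submodule.span ℂ {X, Y}) (hX : IsUnit X)
    {b c : ℂ} (hY : Y * X⁻¹ * Y = b • Y + c • X) :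
    injIndex A ≤ D ^ 2 - D + 1 := by
  rcases IndexWithinOne.result.2.2.2.2 D d A hD hA with h | ⟨h1, h2⟩
  · exact h
  · exfalso
    have hXdet : IsUnit X.det := (Matrix.isUnit_iff_isUnit_det X).1 hX
    have hK : ∀ M : Matrix (Fin D) (Fin D) ℂ, M ∈ (Submodule.span ℂ (Set.range A)) ^ (D ^ 2 - D + 1)
        ↔ M.trace = 0 := by
      intro M
      rw [← prodSpan_eq]
      exact h2 M
    have hXW : X ∈ Submodule.span ℂ (Set.range A) := by
      rw [hW]; exact Submodule.subset_span (by simp)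
    have hYW : Y ∈ Submodule.span ℂ (Set.range A) := by
      rw [hW]; exact Submodule.subset_span (by simp)
    have hWmem : ∀ M ∈ Submodule.span ℂ (Set.range A), ∃ a b : ℂ, M = a • X + b • Y := by
      intro M hM
      rw [hW, Submodule.mem_span_pair] at hM
      obtain ⟨a, b, h⟩ := hM
      exact ⟨a, b, h.symm⟩
    have htr : ∀ w ∈ (Submodule.span ℂ (Set.range A)) ^ (D ^ 2 - D),
        ∀ Z ∈ Submodule.span ℂ (Set.range A), (Z * w).trace = 0 := by
      intro w hw Z hZ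
      rw [← hK, pow_succ']
      exact Submodule.mul_mem_mul hZ hw
    obtain ⟨q, hq⟩ := scalar_of_trace (X⁻¹ * Y) (by
      intro M hM
      rw [← hK, pow_succ] at hM
      refine Submodule.mul_induction_on hM ?_ ?_
      · intro w hw Z hZ
        obtain ⟨a', b', rfl⟩ := hWmem Z hZ
        have e1 : (X⁻¹ * Y * (w * X)).trace = 0 := by
          rw [← mul_assoc, Matrix.trace_mul_comm, ← mul_assoc, ← mul_assoc,
            Matrix.mul_nonsing_inv _ hXdet, one_mul]
          exact htr w hw Y hYW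
        have e2 : (X⁻¹ * Y * (w * Y)).trace = 0 := by
          rw [← mul_assoc, Matrix.trace_mul_comm, ← mul_assoc, ← mul_assoc, hY]
          exact htr w hw _ (Submodule.add_mem _ (Submodule.smul_mem _ _ hYW)
            (Submodule.smul_mem _ _ hXW))
        rw [mul_add, mul_add, Matrix.mul_smul, Matrix.mul_smul, Matrix.mul_smul, Matrix.mul_smul,
          Matrix.trace_add, Matrix.trace_smul, Matrix.trace_smul, e1, e2]
        simp
      · intro x y hx hy
        rw [mul_add, Matrix.trace_add, hx, hy, add_zero])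
    have hYX : Y = q • X := by
      have : X * (X⁻¹ * Y) = Y := by
        rw [← mul_assoc, Matrix.mul_nonsing_inv _ hXdet, one_mul]
      rw [hq] at this
      rw [← this, Matrix.mul_smul, mul_one]
    have hWX : ∀ M ∈ Submodule.span ℂ (Set.range A), ∃ a : ℂ, M = a • X := by
      intro M hM
      obtain ⟨a, b, rfl⟩ := hWmem M hM
      exact ⟨a + b * q, by rw [hYX, smul_smul, ← add_smul]⟩
    have hpow : ∀ n, ∀ M ∈ (Submodule.span ℂ (Set.range A)) ^ n, ∃ a : ℂ, M = a • X ^ n := by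
      intro n
      induction n with
      | zero =>
        intro M hM
        rw [pow_zero, Submodule.mem_one] at hM
        obtain ⟨a, rfl⟩ := hM
        exact ⟨a, by rw [pow_zero]; exact Algebra.algebraMap_eq_smul_one a⟩
      | succ n ih =>
        intro M hM
        rw [pow_succ] at hM
        refine Submodule.mul_induction_on hM ?_ ?_
        · intro x hx y hy
          obtain ⟨a, rfl⟩ := ih x hx
          obtain ⟨b, rfl⟩ := hWX y hy
          exact ⟨a * b, by rw [Matrix.smul_mul, Matrix.mul_smul, smul_smul, pow_succ]⟩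
        · rintro x y ⟨a, rfl⟩ ⟨b, rfl⟩
          exact ⟨a + b, by rw [add_smul]⟩
    obtain ⟨hL1, htop⟩ := injIndex_mem hA
    rw [prodSpan_eq] at htop
    -- all matrices are multiples of one invertible matrix, so `D = 1`
    rcases Nat.lt_or_ge 1 D with hD2 | hD2
    · obtain ⟨a, ha⟩ := hpow (injIndex A) (Matrix.single ⟨0, by omega⟩ ⟨1, hD2⟩ 1)
        (by rw [htop]; trivial)
      have h3 : (Matrix.single (⟨0, by omega⟩ : Fin D) (⟨1, hD2⟩ : Fin D) (1:ℂ)) *
          (Matrix.single (⟨0, by omega⟩ : Fin D) (⟨1, hD2⟩ : Fin D) (1:ℂ)) = 0 := by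
        rw [Matrix.single_mul_single_of_ne]
        simp
      have h4 : (Matrix.single (⟨0, by omega⟩ : Fin D) (⟨1, hD2⟩ : Fin D) (1:ℂ)) ≠ 0 := by
        intro h
        have := congrFun (congrFun h ⟨0, by omega⟩) ⟨1, hD2⟩
        simp at this
      have ha0 : a ≠ 0 := by
        rintro rfl
        rw [zero_smul] at ha
        exact h4 ha
      have hu : IsUnit (a • X ^ (injIndex A)) := by
        have h5 : IsUnit (X ^ (injIndex A)) := hX.pow _
        obtain ⟨Z, hZ⟩ := h5.exists_right_inv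
        rw [Matrix.isUnit_iff_isUnit_det, Matrix.det_smul]
        exact ((isUnit_iff_ne_zero.2 ha0).pow _).mul ((Matrix.isUnit_iff_isUnit_det _).1 h5)
      rw [← ha] at hu
      apply h4
      obtain ⟨Z, hZ⟩ := hu.exists_right_inv
      calc _ = (Matrix.single (⟨0, by omega⟩ : Fin D) (⟨1, hD2⟩ : Fin D) (1:ℂ)) * 1 := (mul_one _).symm
        _ = 0 := by rw [← hZ, ← mul_assoc, h3, zero_mul]
    · obtain rfl : D = 1 := by omega
      have := upper_one hA
      omega

end main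

/-- the extremal pair of the starting file has a rank-one member -/
lemma lower_rank_one (D : ℕ) (hD : 1 ≤ D) : ∃ (A : Fin 2 → Matrix (Fin D) (Fin D) ℂ),
    Normal A ∧ D ^ 2 - D + 1 ≤ injIndex A ∧
      ∃ (c : Fin 2 → ℂ) (u η : Fin D → ℂ), ∑ i, c i • A i = vecMulVec u η ∧
        ∑ i, c i • A i ≠ 0 := by
  obtain ⟨k, rfl⟩ | rfl : (∃ k, D = k + 2) ∨ D = 1 := by
    rcases Nat.lt_or_ge 1 D with h | h
    · left; exact ⟨D - 2, by omega⟩
    · right; omega
  · open Pool.Agent.Results.MP_8bfff4_mp.ExactValue in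
    have h1 : Full ((Submodule.span ℂ (Set.range (Ex.K k))) ^ ((k+2)*(k+1)+1)) :=
      (fullRankAt_iff (Ex.K k) _).1 (Ex.T_fullRank k)
    have h2 : ¬ Full ((Submodule.span ℂ (Set.range (Ex.K k))) ^ ((k+2)*(k+1))) := fun h =>
      Ex.T_not_fullRank k ((fullRankAt_iff (Ex.K k) _).2 h)
    obtain ⟨N, hN⟩ := exists_top (by omega) h1
    have h3 : Normal (Ex.K k) :=
      ⟨N + 1, by omega, by rw [prodSpan_eq]; exact top_succ (by omega) h1 hN⟩
    refine ⟨Ex.K k, h3, ?_, ?_⟩
    · by_contra hcon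
      push Not at hcon
      obtain ⟨-, h4⟩ := injIndex_mem h3
      rw [prodSpan_eq] at h4
      apply h2
      apply full_of_top
      apply top_le (by omega) h1 _ h4
      have e : (k+2)^2 = (k+2)*(k+1) + (k+2) := by ring
      omega
    · refine ⟨![0, 1], fun i => if (i:ℕ) ≤ 1 then ((Real.sqrt 2 : ℝ) : ℂ)⁻¹ else 0,
        fun j => if (j:ℕ) = k + 1 then 1 else 0, ?_, ?_⟩
      · rw [Fin.sum_univ_two]
        ext i j
        simp only [Ex.K, Ex.B, Matrix.vecMulVec_apply, Matrix.cons_val_zero, Matrix.cons_val_one,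
          Matrix.add_apply, Matrix.smul_apply, smul_eq_mul]
        split_ifs <;> simp_all
      · rw [Fin.sum_univ_two]
        intro h
        have h5 := congrFun (congrFun h 0) ⟨k+1, by omega⟩
        simp [Ex.K, Ex.B] at h5
  · have h3 : Normal (fun _ : Fin 2 => (1 : Matrix (Fin 1) (Fin 1) ℂ)) := by
      refine ⟨1, le_rfl, ?_⟩
      rw [prodSpan_eq, pow_one, eq_top_iff]
      intro M _
      have : M = (M 0 0) • (1 : Matrix (Fin 1) (Fin 1) ℂ) := by
        ext i j
        obtain rfl : i = 0 := Subsingleton.elim _ _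
        obtain rfl : j = 0 := Subsingleton.elim _ _
        simp
      rw [this]
      apply Submodule.smul_mem
      apply Submodule.subset_span
      exact ⟨0, rfl⟩
    refine ⟨_, h3, (injIndex_mem h3).1, ![0, 1], fun _ => 1, fun _ => 1, ?_, ?_⟩
    · rw [Fin.sum_univ_two]
      ext i j
      obtain rfl : i = 0 := Subsingleton.elim _ _
      obtain rfl : j = 0 := Subsingleton.elim _ _
      simp [Matrix.vecMulVec_apply]
    · rw [Fin.sum_univ_two]
      simp

/-- **Exact maximum on the tuples with a rank-one member of the span, and two restrictions on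
tuples of index `D² - D + 2`.**
(1) For every `D ≥ 1`, the largest injectivity index of a normal tuple of `D × D` matrices some
linear combination of which is a nonzero matrix `u ηᵀ` is exactly `D² - D + 1`.
(2) If a normal tuple has index above `D² - D + 1`, then only scalar matrices `Q` satisfy
`Q S_i ⊆ S_i` or `S_i Q ⊆ S_i` for some `i ≤ D² - D + 1`.
(3) If the span of a normal tuple is spanned by `X` and `Y` with `X` invertible and
`Y X⁻¹ Y ∈ span(X, Y)` (that is, `X⁻¹ Y` has a minimal polynomial of degree at most two), then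
the index is at most `D² - D + 1`. -/
theorem result :
    (∀ D : ℕ, 1 ≤ D →
      IsGreatest {L | ∃ (d : ℕ) (A : Fin d → Matrix (Fin D) (Fin D) ℂ), 1 ≤ d ∧ Normal A ∧
        (∃ (c : Fin d → ℂ) (u η : Fin D → ℂ), ∑ i, c i • A i = vecMulVec u η ∧
          ∑ i, c i • A i ≠ 0) ∧ injIndex A = L} (D ^ 2 - D + 1)) ∧
    (∀ (D d : ℕ) (A : Fin d → Matrix (Fin D) (Fin D) ℂ), 1 ≤ D → Normal A →
      D ^ 2 - D + 1 < injIndex A →
      ∀ (Q : Matrix (Fin D) (Fin D) ℂ) (i : ℕ), i ≤ D ^ 2 - D + 1 →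
        ((∀ M ∈ prodSpan A i, Q * M ∈ prodSpan A i) ∨
          (∀ M ∈ prodSpan A i, M * Q ∈ prodSpan A i)) →
        ∃ c : ℂ, Q = c • (1 : Matrix (Fin D) (Fin D) ℂ)) ∧
    (∀ (D d : ℕ) (A : Fin d → Matrix (Fin D) (Fin D) ℂ), 1 ≤ D → Normal A →
      ∀ X Y : Matrix (Fin D) (Fin D) ℂ,
        Submodule.span ℂ (Set.range A) = Submodule.span ℂ {X, Y} → IsUnit X →
        (∃ b c : ℂ, Y * X⁻¹ * Y = b • Y + c • X) →
        injIndex A ≤ D ^ 2 - D + 1) := by
  refine ⟨?_, ?_, ?_⟩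
  · intro D hD
    constructor
    · obtain ⟨A, hA, hA2, c, u, η, hc, h0⟩ := lower_rank_one D hD
      exact ⟨2, A, by norm_num, hA, ⟨c, u, η, hc, h0⟩, le_antisymm (main_upper hD hA hc h0) hA2⟩
    · rintro L ⟨d, A, -, hA, ⟨c, u, η, hc, h0⟩, rfl⟩
      exact main_upper hD hA hc h0
  · intro D d A hD hA hex Q i hi hQ
    exact stab_scalar hD hA hex Q i hi hQ
  · rintro D d A hD hA X Y hW hX ⟨b, c, hY⟩
    exact pencil_upper hD hA hW hX hY

end Pool.Agent.Results.MP_4e951d_mp.RankOneFamily
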