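import Mathlib
import Pool.Agent.Results.MP_4e951d_mp.RankOneFamily

namespace Pool.Agent.Results.MP_4e951d_mp.SpanDimension

open Matrix
open Pool.Agent.Results.MP_8bfff4_mp.ExactValue

variable {D : ℕ} {W : Submodule ℂ (Matrix (Fin D) (Fin D) ℂ)}

/-- equality in the counting inequality -/
lemma gen_eq {X : Matrix (Fin D) (Fin D) ℂ} (hD : 2 ≤ D)
    (hX : X ∈ W) (hXu : IsUnit X) {N : ℕ} (hN : W ^ N = ⊤) {K : ℕ} (hK : K ≤ N) (hK2 : 2 ≤ K)
    (hKD : K + D = D * D + 1)
    (h : ∀ i, 1 ≤ i → i < K → fr (W ^ i) < fr (ln X * W ^ i ⊔ W ^ i * ln X)) :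
    fr (ln X * W ⊔ W * ln X) = fr W + 1 ∧ ∀ Z ∈ W, (∃ M, Z = M * X - X * M) → Z = 0 := by
  obtain ⟨u, rfl⟩ := hXu
  set X : Matrix (Fin D) (Fin D) ℂ := (u : Matrix (Fin D) (Fin D) ℂ) with hXdef
  set Xi : Matrix (Fin D) (Fin D) ℂ := ((u⁻¹ : (Matrix (Fin D) (Fin D) ℂ)ˣ) : Matrix (Fin D) (Fin D) ℂ) with hXi
  have hXX : Xi * X = 1 := Units.inv_mul u
  have hXX' : X * Xi = 1 := Units.mul_inv u
  have hXiu : ∀ n, IsUnit (Xi ^ n) := fun n => (Units.isUnit (u⁻¹)).pow n
  let R := LinearMap.range (adL X)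
  let Z : ℕ → Submodule ℂ (Matrix (Fin D) (Fin D) ℂ) := fun n => ln (Xi ^ n) * W ^ n
  let q : ℕ → ℕ := fun n => Module.finrank ℂ ((Z n).map R.mkQ)
  have hstep : ∀ n, q (n+1) + fr (ln X * W ^ n ⊔ W ^ n * ln X) ≤ q n + fr (W ^ (n+1)) := by
    intro n
    have h1 : ln (Xi ^ (n+1)) * (ln X * W ^ n ⊔ W ^ n * ln X) ≤ Z (n+1) := by
      apply mul_le_mul' le_rfl
      apply sup_le
      · rw [pow_succ']; exact mul_le_mul' (ln_le.2 hX) le_rfl
      · rw [pow_succ]; exact mul_le_mul' le_rfl (ln_le.2 hX)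
    have h2 := finrank_map_add R.mkQ h1
    have h3 : fr (ln (Xi ^ (n+1)) * (ln X * W ^ n ⊔ W ^ n * ln X)) = fr (ln X * W ^ n ⊔ W ^ n * ln X) :=
      fr_ln_mul (hXiu _)
    have h4 : fr (Z (n+1)) = fr (W ^ (n+1)) := fr_ln_mul (hXiu _)
    have h5 : (ln (Xi ^ (n+1)) * (ln X * W ^ n ⊔ W ^ n * ln X)).map R.mkQ ≤ (Z n).map R.mkQ := by
      rw [Submodule.mul_sup, Submodule.map_sup]
      apply sup_le
      · apply Submodule.map_mono
        rw [← mul_assoc, ln_mul_ln, pow_succ, mul_assoc, hXX, mul_one]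
      · rintro _ ⟨c, hc, rfl⟩
        rw [← mul_assoc, SetLike.mem_coe, mem_mul_ln] at hc
        obtain ⟨d, hd, rfl⟩ := hc
        rw [pow_succ', ← ln_mul_ln, mul_assoc, mem_ln_mul] at hd
        obtain ⟨z, hz, rfl⟩ := hd
        refine ⟨z, hz, ?_⟩
        rw [eq_comm, ← sub_eq_zero, ← map_sub, Submodule.mkQ_apply, Submodule.Quotient.mk_eq_zero]
        refine ⟨Xi * z, ?_⟩
        rw [adL_apply, ← mul_assoc X, hXX', one_mul]
    have h6 := Submodule.finrank_mono h5
    rw [h3, h4] at h2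
    show Module.finrank ℂ ((Z (n+1)).map R.mkQ) + _ ≤ Module.finrank ℂ ((Z n).map R.mkQ) + _
    omega
  have hmono : ∀ n, fr (W ^ n) ≤ fr (ln X * W ^ n ⊔ W ^ n * ln X) := by
    intro n
    calc fr (W ^ n) = fr (ln X * W ^ n) := (fr_ln_mul (Units.isUnit u)).symm
      _ ≤ _ := fr_mono le_sup_left
  -- slack from n = 1 on
  have hclaim : ∀ n, 2 ≤ n → n ≤ K → q n + (n - 2) + fr (ln X * W ^ 1 ⊔ W ^ 1 * ln X) ≤ fr (W ^ n) + q 1 := by
    intro n hn
    induction n, hn using Nat.le_induction with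
    | base =>
      intro _
      have := hstep 1
      simp only [Nat.reduceAdd] at this
      omega
    | succ n hn ih =>
      intro hn2
      have h1 := ih (by omega)
      have h2 := hstep n
      have h4 := h n (by omega) (by omega)
      omega
  have hclaim2 : ∀ n, K ≤ n → q n + (K - 2) + fr (ln X * W ^ 1 ⊔ W ^ 1 * ln X) ≤ fr (W ^ n) + q 1 := by
    intro n hn
    induction n, hn using Nat.le_induction with
    | base => exact hclaim K hK2 le_rfl
    | succ n hn ih =>
      have h2 := hstep n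
      have h3 := hmono n
      omega
  have h1 := hclaim2 N hK
  have h2 : Z N = ⊤ := by
    apply eq_of_le_of_fr_le le_top
    show _ ≤ fr (ln (Xi ^ N) * W ^ N)
    rw [fr_ln_mul (hXiu _), hN]
  have h3 : q N = D * D - fr R := by
    show Module.finrank ℂ ((Z N).map R.mkQ) = _
    rw [h2, Submodule.map_top, Submodule.range_mkQ, finrank_top]
    have h4 := Submodule.finrank_quotient_add_finrank R
    have h6 : Module.finrank ℂ (Matrix (Fin D) (Fin D) ℂ) = D * D := by
      rw [Module.finrank_matrix]; simp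
    unfold fr
    omega
  have h4 := fr_range_ad X
  have h5 : fr (W ^ N) = D * D := by rw [hN, fr_top]
  have h6 : fr (LinearMap.range (adL X)) = fr R := rfl
  have h7 : q 1 ≤ fr W := by
    have : fr (Z 1) = fr (W ^ 1) := fr_ln_mul (hXiu _)
    rw [pow_one] at this
    rw [← this]
    exact Submodule.finrank_map_le _ _
  have h8 := h 1 le_rfl (by omega)
  rw [pow_one] at h1 h8
  have h9 : q 1 = fr W := by omega
  refine ⟨by omega, ?_⟩
  rintro V hV ⟨M, hM⟩
  -- the quotient map is injective on Z 1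
  have hinj : Z 1 ⊓ R = ⊥ := by
    have h10 := finrank_map_add R.mkQ (inf_le_left : Z 1 ⊓ R ≤ Z 1)
    have h14 : (Z 1 ⊓ R).map R.mkQ = ⊥ := by
      rw [eq_bot_iff, Submodule.map_le_iff_le_comap]
      intro x hx
      rw [Submodule.mem_comap, Submodule.mem_bot, Submodule.mkQ_apply, Submodule.Quotient.mk_eq_zero]
      exact hx.2
    rw [h14, finrank_bot] at h10
    have h15 : fr (Z 1) = fr W := by
      have : fr (Z 1) = fr (W ^ 1) := fr_ln_mul (hXiu _)
      rwa [pow_one] at this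
    have h16 : Module.finrank ℂ ((Z 1).map R.mkQ) = fr W := h9
    apply Submodule.finrank_eq_zero.1
    unfold fr at *
    omega
  have h11 : Xi * V ∈ Z 1 := by
    show Xi * V ∈ ln (Xi ^ 1) * W ^ 1
    rw [pow_one, pow_one, mem_ln_mul]
    exact ⟨V, hV, rfl⟩
  have h12 : Xi * V ∈ R := by
    refine ⟨Xi * M, ?_⟩
    rw [adL_apply, hM, mul_sub, ← mul_assoc, ← mul_assoc, ← mul_assoc, hXX', hXX]
  have h13 : Xi * V = 0 := by
    have : Xi * V ∈ Z 1 ⊓ R := ⟨h11, h12⟩
    rwa [hinj, Submodule.mem_bot] at this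
  calc V = X * (Xi * V) := by rw [← mul_assoc, hXX', one_mul]
    _ = 0 := by rw [h13, mul_zero]

/-- `[X, W]` is at most a line -/
lemma ad_line {X : Matrix (Fin D) (Fin D) ℂ} (hX : X ∈ W) (hXu : IsUnit X)
    (h1 : fr (ln X * W ⊔ W * ln X) = fr W + 1)
    (h2 : ∀ Z ∈ W, (∃ M, Z = M * X - X * M) → Z = 0) : fr (W.map (adL X)) ≤ 1 := by
  have h3 : W.map (adL X) ≤ ln X * W ⊔ W * ln X := by
    rintro _ ⟨w, hw, rfl⟩
    rw [adL_apply]
    apply Submodule.sub_mem
    · exact Submodule.mem_sup_right (Submodule.mul_mem_mul hw (mem_ln_self X))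
    · exact Submodule.mem_sup_left (Submodule.mul_mem_mul (mem_ln_self X) hw)
  obtain ⟨Xi, hXi⟩ := hXu.exists_right_inv
  have hXi2 : Xi * X = 1 := mul_eq_one_comm.1 hXi
  have h4 : W.map (adL X) ⊓ (ln X * W) = ⊥ := by
    rw [eq_bot_iff]
    rintro z ⟨⟨w, hw, rfl⟩, hz2⟩
    rw [SetLike.mem_coe, mem_ln_mul] at hz2
    obtain ⟨v, hv, hvz⟩ := hz2
    have h5 : v = 0 := by
      apply h2 v hv
      refine ⟨Xi * w, ?_⟩
      have h6 : v = Xi * (X * v) := by rw [← mul_assoc, hXi2, one_mul]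
      rw [h6, hvz, adL_apply, mul_sub, ← mul_assoc, ← mul_assoc, ← mul_assoc, hXi, hXi2]
    rw [Submodule.mem_bot, ← hvz, h5, mul_zero]
  have h5 := Submodule.finrank_sup_add_finrank_inf_eq (W.map (adL X)) (ln X * W)
  rw [h4, finrank_bot] at h5
  have h6 : fr (ln X * W) = fr W := fr_ln_mul hXu
  have h7 := fr_mono (sup_le h3 (le_sup_left : ln X * W ≤ ln X * W ⊔ W * ln X))
  unfold fr at *
  omega

/-- the commutators span a line on all of `W` implies `dim W ≤ 2` -/
lemma dim_le_two (hD : 2 ≤ D) {N : ℕ} (hN : W ^ N = ⊤)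
    (hline : ∀ X ∈ W, fr (W.map (adL X)) ≤ 1)
    (hsc : ∀ c : ℂ, c • (1 : Matrix (Fin D) (Fin D) ℂ) ∈ W → c = 0) : fr W ≤ 2 := by
  -- commuting with `W` means scalar
  have hcent : ∀ U : Matrix (Fin D) (Fin D) ℂ, (∀ w ∈ W, U * w = w * U) →
      ∃ c : ℂ, U = c • (1 : Matrix (Fin D) (Fin D) ℂ) := by
    intro U hU
    have h1 : ∀ n, ∀ w ∈ W ^ n, U * w = w * U := by
      intro n
      induction n with
      | zero =>
        intro w hw
        rw [pow_zero, Submodule.mem_one] at hw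
        obtain ⟨a, rfl⟩ := hw
        exact (Algebra.commutes a U).symm
      | succ n ih =>
        intro w hw
        rw [pow_succ] at hw
        refine Submodule.mul_induction_on hw ?_ ?_
        · intro x hx y hy
          rw [← mul_assoc, ih x hx, mul_assoc, hU y hy, mul_assoc]
        · intro x y hx hy
          rw [mul_add, add_mul, hx, hy]
    have h2 : ∀ w, U * w = w * U := fun w => h1 N w (by rw [hN]; trivial)
    have h3 : U ∈ Set.range (Matrix.scalar (Fin D)) := by
      rw [Matrix.mem_range_scalar_iff_commute_single']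
      intro i j
      exact (h2 _).symm
    obtain ⟨c, rfl⟩ := h3
    exact ⟨c, by ext i j; simp [Matrix.diagonal, Matrix.one_apply]⟩
  by_contra hcon
  push Not at hcon
  -- a noncommuting pair
  obtain ⟨X, hX, Y, hY, hXY⟩ : ∃ X ∈ W, ∃ Y ∈ W, Y * X - X * Y ≠ 0 := by
    by_contra hc
    push Not at hc
    have h1 : ∀ U ∈ W, U = 0 := by
      intro U hU
      obtain ⟨c, hc2⟩ := hcent U (fun w hw => sub_eq_zero.1 (hc w hw U hU))
      rw [hc2] at hU ⊢
      rw [hsc c hU, zero_smul]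
    have h2 : W = ⊥ := by
      rw [eq_bot_iff]; intro x hx; exact (Submodule.mem_bot ℂ).2 (h1 x hx)
    rw [h2] at hcon
    unfold fr at hcon
    rw [finrank_bot] at hcon
    omega
  set B := Y * X - X * Y with hB
  -- everything in `[X, W]` is a multiple of a given nonzero member
  have hmul : ∀ X ∈ W, ∀ Y ∈ W, ∀ Z ∈ W, Y * X - X * Y ≠ 0 → ∃ c : ℂ, Z * X - X * Z = c • (Y * X - X * Y) := by
    intro X hX Y hY Z hZ hne
    have h1 := hline X hX
    have h2 : ln (Y * X - X * Y) ≤ W.map (adL X) := ln_le.2 ⟨Y, hY, rfl⟩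
    have h3 : fr (ln (Y * X - X * Y)) = 1 := by
      unfold fr ln
      exact finrank_span_singleton hne
    have h4 : ln (Y * X - X * Y) = W.map (adL X) := eq_of_le_of_fr_le h2 (by omega)
    have h5 : Z * X - X * Z ∈ ln (Y * X - X * Y) := by
      rw [h4]; exact ⟨Z, hZ, rfl⟩
    obtain ⟨c, hc⟩ := Submodule.mem_span_singleton.1 h5
    exact ⟨c, hc.symm⟩
  -- decomposition
  have hdec : ∀ Z ∈ W, ∃ a b : ℂ, ∃ H ∈ W, Z = a • X + b • Y + H ∧ H * X = X * H ∧ H * Y = Y * H := by
    intro Z hZ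
    obtain ⟨b, hb⟩ := hmul X hX Y hY Z hZ hXY
    obtain ⟨a, ha⟩ := hmul Y hY X hX Z hZ (by
      intro h; apply hXY; rw [hB, ← neg_sub, h, neg_zero])
    refine ⟨a, b, Z - a • X - b • Y, ?_, by abel, ?_, ?_⟩
    · exact W.sub_mem (W.sub_mem hZ (W.smul_mem _ hX)) (W.smul_mem _ hY)
    · rw [← sub_eq_zero]
      have e : (Z - a • X - b • Y) * X - X * (Z - a • X - b • Y) =
          (Z * X - X * Z) - b • (Y * X - X * Y) := by
        simp only [sub_mul, mul_sub, Matrix.smul_mul, Matrix.mul_smul, smul_sub]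
        abel
      rw [e, hb, sub_self]
    · rw [← sub_eq_zero]
      have e : (Z - a • X - b • Y) * Y - Y * (Z - a • X - b • Y) =
          (Z * Y - Y * Z) - a • (X * Y - Y * X) := by
        simp only [sub_mul, mul_sub, Matrix.smul_mul, Matrix.mul_smul, smul_sub]
        abel
      rw [e, ha, sub_self]
  -- a nonzero `H`
  by_cases hH0 : ∀ H ∈ W, H * X = X * H → H * Y = Y * H → H = 0
  · have h1 : W ≤ Submodule.span ℂ {X, Y} := by
      intro Z hZ
      obtain ⟨a, b, H, hH, hZe, hHX, hHY⟩ := hdec Z hZ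
      rw [hZe, hH0 H hH hHX hHY, add_zero]
      exact Submodule.mem_span_pair.2 ⟨a, b, rfl⟩
    have h2 := fr_mono h1
    have h3 : fr (Submodule.span ℂ {X, Y}) ≤ 2 := by
      classical
      have h4 := finrank_span_finset_le_card (R := ℂ) ({X, Y} : Finset (Matrix (Fin D) (Fin D) ℂ))
      rw [Finset.coe_pair] at h4
      exact h4.trans Finset.card_le_two
    omega
  push Not at hH0
  obtain ⟨H, hH, hHX, hHY, hHne⟩ := hH0
  -- an element commuting with everything is scalar
  by_cases hcomm : ∀ Z ∈ W, ∀ Z' ∈ W, Z * X = X * Z → Z * Y = Y * Z → Z' * X = X * Z' →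
      Z' * Y = Y * Z' → Z * Z' = Z' * Z
  · obtain ⟨c, hc⟩ := hcent H (by
      intro w hw
      obtain ⟨a, b, H', hH', rfl, hX', hY'⟩ := hdec w hw
      rw [mul_add, mul_add, add_mul, add_mul, Matrix.mul_smul, Matrix.mul_smul, Matrix.smul_mul,
        Matrix.smul_mul, hHX, hHY, hcomm H hH H' hH' hHX hHY hX' hY'])
    rw [hc] at hH hHne
    rw [hsc c hH, zero_smul] at hHne
    exact hHne rfl
  push Not at hcomm
  obtain ⟨Z, hZ, Z', hZ', hZX, hZY, hZX', hZY', hne⟩ := hcomm
  -- `B` is a multiple of `[Z, Z']`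
  obtain ⟨c, hc⟩ := hmul (X + Z) (W.add_mem hX hZ) Z' hZ' Y hY (by
    intro h
    apply hne
    have e : Z' * (X + Z) - (X + Z) * Z' = Z' * Z - Z * Z' := by
      rw [mul_add, add_mul, hZX']; abel
    rw [e, sub_eq_zero] at h
    exact h.symm)
  have e1 : Y * (X + Z) - (X + Z) * Y = B := by
    rw [mul_add, add_mul, hZY, hB]; abel
  have e2 : Z' * (X + Z) - (X + Z) * Z' = Z' * Z - Z * Z' := by
    rw [mul_add, add_mul, hZX']; abel
  rw [e1, e2] at hc
  obtain ⟨b, hb⟩ := hcent B (by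
    intro w hw
    obtain ⟨a, b, H', hH', rfl, hX', hY'⟩ := hdec w hw
    have c1 : Commute X Z := hZX.symm
    have c2 : Commute X Z' := hZX'.symm
    have c3 : Commute Y Z := hZY.symm
    have c4 : Commute Y Z' := hZY'.symm
    have c5 : Commute H' X := hX'
    have c6 : Commute H' Y := hY'
    have f1 : B * X = X * B := by
      rw [hc]
      exact ((((c2.mul_right c1).sub_right (c1.mul_right c2)).smul_right c).eq).symm
    have f2 : B * Y = Y * B := by
      rw [hc]
      exact ((((c4.mul_right c3).sub_right (c3.mul_right c4)).smul_right c).eq).symm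
    have f3 : B * H' = H' * B := by
      rw [hB]
      exact (((c6.mul_right c5).sub_right (c5.mul_right c6)).eq).symm
    rw [mul_add, mul_add, add_mul, add_mul, Matrix.mul_smul, Matrix.mul_smul, Matrix.smul_mul,
      Matrix.smul_mul, f1, f2, f3])
  have htr : B.trace = 0 := by
    rw [hB, Matrix.trace_sub, Matrix.trace_mul_comm, sub_self]
  rw [hb, Matrix.trace_smul, Matrix.trace_one, Fintype.card_fin, smul_eq_mul] at htr
  have hD0 : ((D : ℕ) : ℂ) ≠ 0 := by exact_mod_cast (by omega : D ≠ 0)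
  have hb0 : b = 0 := by
    rcases mul_eq_zero.1 htr with h | h
    · exact h
    · exact absurd h hD0
  apply hXY
  rw [hb, hb0, zero_smul]

lemma PF_adW (W : Submodule ℂ (Matrix (Fin D) (Fin D) ℂ)) :
    PF (fun s : ℕ → Matrix (Fin D) (Fin D) ℂ => W.map (adL (s 0))) := by
  classical
  obtain ⟨n, b, hb⟩ : ∃ (n : ℕ) (b : Fin n → Matrix (Fin D) (Fin D) ℂ),
      Submodule.span ℂ (Set.range b) = W := by
    let e := Module.finBasis ℂ W
    refine ⟨_, fun i => ((e i : W) : Matrix (Fin D) (Fin D) ℂ), ?_⟩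
    have h := e.span_eq
    have h2 := congrArg (Submodule.map W.subtype) h
    rw [Submodule.map_span, ← Set.range_comp, Submodule.map_top, Submodule.range_subtype] at h2
    exact h2
  refine ⟨Fin n, inferInstance, fun S i =>
    ((b i).map Polynomial.C) * S 0 - S 0 * ((b i).map Polynomial.C), ?_⟩
  intro S t
  simp only [map_sub, map_mul, ev_const]
  rw [← hb, Submodule.map_span, ← Set.range_comp]
  rfl

/-- the exceptional space has dimension at most two -/
lemma exceptional_dim {Y : Matrix (Fin D) (Fin D) ℂ} (hD : 2 ≤ D) (hY : Y ∈ W) (hYu : IsUnit Y)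
    {N : ℕ} (hN : W ^ N = ⊤) (hmin : ∀ i, i < N → W ^ i ≠ ⊤) (hcase : D * D - D + 1 < N)
    (hsc : ∀ c : ℂ, c • (1 : Matrix (Fin D) (Fin D) ℂ) ∈ W → c = 0) : fr W ≤ 2 := by
  obtain ⟨-, -, hun⟩ := Pool.Agent.H780W.exception hD hY hYu hN hmin hcase
  have hDD : D ≤ D * D := Nat.le_mul_self D
  have hDD2 : 2 * D ≤ D * D := Nat.mul_le_mul_right D hD
  obtain ⟨P, hP1, hP2, hP3⟩ := generic_unit hY hYu (D * D - D + 1) hun
  apply dim_le_two hD hN _ hsc
  intro X hX
  by_contra hcon
  push Not at hcon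
  obtain ⟨s, hsW, h1, h2⟩ := hP1.exists ((PF_adW W).lo 2) W hP2 ⟨fun _ => X, fun _ => hX, hcon⟩
  obtain ⟨h3, h4⟩ := hP3 s h1
  have hu : IsUnit (s 0) := isUnit_of_fr (le_antisymm (fr_le _) h3)
  obtain ⟨h5, h6⟩ := gen_eq hD (hsW 0) hu hN (by omega) (by omega) (by omega) h4
  have h7 := ad_line (hsW 0) hu h5 h6
  omega

open Pool.Agent.Results.MP_4e951d_mp.IndexWithinOne in
/-- **Three independent matrices are enough.** A normal tuple of `D × D` matrices whose members
span a space of dimension at least three has injectivity index at most `D² - D + 1`; so index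
`D² - D + 2` could only occur for tuples spanning a space of dimension exactly two. -/
theorem result (D d : ℕ) (A : Fin d → Matrix (Fin D) (Fin D) ℂ) (hD : 1 ≤ D) (hA : Normal A)
    (h3 : 3 ≤ Module.finrank ℂ (Submodule.span ℂ (Set.range A))) :
    injIndex A ≤ D ^ 2 - D + 1 := by
  rcases Nat.lt_or_ge 1 D with hD2 | hD2
  swap
  · obtain rfl : D = 1 := by omega
    exact (upper_one hA).trans (by norm_num)
  rcases IndexWithinOne.result.2.2.2.2 D d A hD hA with h | ⟨h1, h2⟩
  · exact h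
  · by_contra hcase
    push Not at hcase
    obtain ⟨Y, hY, hYu⟩ : ∃ Y ∈ Submodule.span ℂ (Set.range A), IsUnit Y := by
      by_contra hcon
      push Not at hcon
      have h4 := IndexWithinOne.result.2.2.2.1 D d A hD hA
        (fun c => hcon _ (RankOneFamily.comb_mem c))
      omega
    obtain ⟨hL1, hL⟩ := injIndex_mem hA
    rw [prodSpan_eq] at hL
    have hmin : ∀ i, i < injIndex A → (Submodule.span ℂ (Set.range A)) ^ i ≠ ⊤ := by
      intro i hi htop
      rcases Nat.eq_zero_or_pos i with h0 | h0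
      · subst h0
        rw [pow_zero] at htop
        have h6 : fr (1 : Submodule ℂ (Matrix (Fin D) (Fin D) ℂ)) = D * D := by
          rw [htop, fr_top]
        have h7 : fr (1 : Submodule ℂ (Matrix (Fin D) (Fin D) ℂ)) ≤ 1 := by
          rw [← ln_one]
          unfold fr ln
          exact (finrank_span_le_card _).trans (by simp)
        have h8 : 2 * 2 ≤ D * D := Nat.mul_le_mul (by omega) (by omega)
        omega
      · have := injIndex_le h0 (by rw [prodSpan_eq]; exact htop)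
        omega
    have hsc : ∀ c : ℂ, c • (1 : Matrix (Fin D) (Fin D) ℂ) ∈ Submodule.span ℂ (Set.range A) →
        c = 0 := by
      intro c hc
      have h4 := Submodule.pow_mem_pow _ hc (D ^ 2 - D + 1)
      rw [← prodSpan_eq, h2, smul_pow, one_pow, Matrix.trace_smul, Matrix.trace_one,
        Fintype.card_fin, smul_eq_mul] at h4
      have hD0 : ((D : ℕ) : ℂ) ≠ 0 := by exact_mod_cast (by omega : D ≠ 0)
      rcases mul_eq_zero.1 h4 with h | h
      · exact (pow_eq_zero_iff (by omega)).1 h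
      · exact absurd h hD0
    rw [pow_two] at hcase
    have h5 := exceptional_dim (by omega) hY hYu hL hmin hcase hsc
    unfold fr at h5
    omega

end Pool.Agent.Results.MP_4e951d_mp.SpanDimension
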